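import Pool.Agent.helper47.TFQ.Spec

/-!
# Project tfq: QP3
-/

set_option autoImplicit false

namespace Pool.Agent.TFQ

open Polynomial Pool.Agent.GJ Pool.Agent.TK
open Pool.Agent.FJ (VT Om chiO IsFrobO rf rs)
open Pool.Agent.TD (zK)

noncomputable section

theorem QP3_coeff {F : Type} [Field F] {k : ℕ} (c : Fin k → F) (i : Fin k) :
    (gq c).coeff (i : ℕ) = c i := by
  unfold gq
  rw [coeff_add, coeff_X_pow, if_neg (Nat.ne_of_lt i.2), zero_add, finsetSum_coeff]
  rw [Finset.sum_eq_single i]
  · simp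
  · intro b _ hb
    rw [coeff_C_mul, coeff_X_pow, if_neg, mul_zero]
    intro h
    exact hb (Fin.ext h.symm)
  · intro h
    exact absurd (Finset.mem_univ i) h

theorem QP3_deg {F : Type} [Field F] {k : ℕ} (c : Fin k → F) :
    (∑ i : Fin k, C (c i) * X ^ (i : ℕ) : F[X]).degree < (k : ℕ) := by
  refine (degree_lt_iff_coeff_zero _ _).2 fun m hm => ?_
  rw [finsetSum_coeff]
  refine Finset.sum_eq_zero fun i _ => ?_
  rw [coeff_C_mul, coeff_X_pow, if_neg, mul_zero]
  intro h
  have := i.2
  omega

theorem QP3_monic {F : Type} [Field F] {k : ℕ} (c : Fin k → F) : (gq c).Monic :=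
  monic_X_pow_add (QP3_deg c)

theorem QP3_natDegree {F : Type} [Field F] {k : ℕ} (c : Fin k → F) : (gq c).natDegree = k := by
  have h : (gq c).degree = (k : ℕ) := by
    unfold gq
    rw [degree_add_eq_left_of_degree_lt, degree_X_pow]
    rw [degree_X_pow]
    exact QP3_deg c
  exact natDegree_eq_of_degree_eq_some h

theorem QP3_surj {F : Type} [Field F] {k : ℕ} (G : F[X]) (hG : G.Monic) (hd : G.natDegree = k) :
    gq (fun i : Fin k => G.coeff i) = G := by
  conv_rhs => rw [hG.as_sum, hd]
  unfold gq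
  rw [Finset.sum_range]

theorem QP3 (hKP2 : TK.KP2_stmt) : QP3_stmt := by
  intro F _ _ _ n a ha M _ f
  obtain ⟨h1, h2⟩ := hKP2 F n a ha
  rw [← Finset.sum_filter]
  refine Finset.sum_bij (fun c _ => fun j => (gq c).eval (a j)) ?_ ?_ ?_ ?_
  · intro c hc
    rw [Finset.mem_filter]
    refine ⟨Finset.mem_univ _, h1 _ (QP3_monic c) (QP3_natDegree c), ?_⟩
    exact (Finset.mem_filter.1 hc).2
  · intro c _ c' _ hcc
    have hev : ∀ j, (gq c).eval (a j) = (gq c').eval (a j) := fun j => congrFun hcc j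
    have hg : gq c = gq c' := by
      refine eq_of_degree_sub_lt_of_eval_index_eq (Finset.univ : Finset (Fin (n + 1))) (v := a) ?_ ?_ ?_
      · exact fun x _ y _ hxy => ha hxy
      · rw [Finset.card_univ, Fintype.card_fin]
        refine lt_of_le_of_lt (degree_sub_le _ _) ?_
        rw [max_lt_iff]
        constructor
        · rw [degree_eq_natDegree (QP3_monic c).ne_zero, QP3_natDegree]
          exact_mod_cast Nat.lt_succ_self n
        · rw [degree_eq_natDegree (QP3_monic c').ne_zero, QP3_natDegree]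
          exact_mod_cast Nat.lt_succ_self n
      · exact fun j _ => hev j
    funext i
    rw [← QP3_coeff c i, ← QP3_coeff c' i, hg]
  · intro w hw
    obtain ⟨_, hw1, hw2⟩ := Finset.mem_filter.1 hw
    obtain ⟨G, hG, hd, hev⟩ := h2 w hw1
    have hgp := QP3_surj G hG hd
    have hfun : (fun j => (gq (fun i : Fin n => G.coeff i)).eval (a j)) = w := by
      funext j
      rw [hgp, hev j]
    refine ⟨fun i => G.coeff i, ?_, hfun⟩
    rw [Gq, Finset.mem_filter]
    refine ⟨Finset.mem_univ _, fun j => ?_⟩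
    rw [hgp, hev j]
    exact hw2 j
  · intro c _
    rfl

end

end Pool.Agent.TFQ
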